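import Mathlib

set_option autoImplicit false
open Finset

namespace Pool.Agent.Results.MP_3e1131_co.Bounded

/-- M contains a copy a S + b of S with a ≥ 1 and b an integer. -/
def HasCopy (S M : Finset ℕ) : Prop :=
  ∃ (a : ℕ) (b : ℤ), 1 ≤ a ∧ ∀ s ∈ S, ∃ m ∈ M, (m : ℤ) = a * s + b

/-- Win S N M B: Maker holds M, Breaker holds B, Maker is to move and can force a copy of S using
at most N further selections. -/
def Win (S : Finset ℕ) : ℕ → Finset ℕ → Finset ℕ → Prop
  | 0, M, _ => HasCopy S M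
  | N + 1, M, B => HasCopy S M ∨ ∃ x, x ∉ M ∧ x ∉ B ∧
      ∀ y, y ∉ insert x M → y ∉ B → Win S N (insert x M) (insert y B)

def W (S T : Finset ℕ) : ℕ → Finset ℕ → Finset ℕ → Prop
  | 0, M, _ => HasCopy S M
  | N + 1, M, B => HasCopy S M ∨ ∃ x ∈ T, x ∉ M ∧ x ∉ B ∧
      ∀ y, y ∉ insert x M → W S T N (insert x M) (insert y B)

theorem W.win {S T : Finset ℕ} : ∀ {N M B}, W S T N M B → Win S N M B
  | 0, _, _, h => h
  | _ + 1, _, _, h => h.imp id fun ⟨x, _, h1, h2, h3⟩ => ⟨x, h1, h2, fun y hy _ => (h3 y hy).win⟩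

theorem W.of_copy {S T M B : Finset ℕ} (h : HasCopy S M) : ∀ N, W S T N M B
  | 0 => h
  | _ + 1 => Or.inl h

theorem W.succ {S T : Finset ℕ} : ∀ {N M B}, W S T N M B → W S T (N + 1) M B
  | 0, _, _, h => Or.inl h
  | _ + 1, _, _, h => h.imp id fun ⟨x, h0, h1, h2, h3⟩ =>
      ⟨x, h0, h1, h2, fun y hy => (h3 y hy).succ⟩

theorem W.anti {S T : Finset ℕ} : ∀ {N M B B'}, (∀ z ∈ T, z ∈ B' → z ∈ B) → W S T N M B →
    W S T N M B'
  | 0, _, _, _, _, h => h
  | _ + 1, _, _, _, hB, h => h.imp id fun ⟨x, h0, h1, h2, h3⟩ =>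
      ⟨x, h0, h1, fun e => h2 (hB x h0 e), fun y hy => (h3 y hy).anti fun z hz e =>
        mem_insert.mpr ((mem_insert.mp e).imp id (hB z hz))⟩

theorem steal (S T : Finset ℕ) (hR : ∀ M B, T ⊆ M ∪ B → HasCopy S M ∨ HasCopy S B) :
    ∀ k M B, (T \ (M ∪ B)).card ≤ k → W S T k M B ∨ ∀ x, x ∉ B → W S T k B (insert x M) := by
  have base : ∀ k M B, T \ (M ∪ B) = ∅ → W S T k M B ∨ ∀ x, x ∉ B → W S T k B (insert x M) :=
    fun k M B h => (hR M B (sdiff_eq_empty_iff_subset.mp h)).imp (fun h => W.of_copy h k)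
      fun h _ _ => W.of_copy h k
  intro k
  induction k with
  | zero => exact fun M B h => base 0 M B (card_eq_zero.mp (by omega))
  | succ k ih =>
    intro M B h
    rcases (T \ (M ∪ B)).eq_empty_or_nonempty with h0 | ⟨z, hz⟩
    · exact base _ M B h0
    by_contra hc
    push Not at hc
    obtain ⟨h1, x, hxB, hx⟩ := hc
    obtain ⟨x, hxT, hx⟩ : ∃ x ∈ T \ (M ∪ B), ¬ W S T (k + 1) B (insert x M) := by
      by_cases h2 : x ∈ T \ (M ∪ B)
      · exact ⟨x, h2, hx⟩
      · refine ⟨z, hz, fun e => hx (e.anti fun u hu e' => ?_)⟩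
        rcases mem_insert.mp e' with rfl | e'
        · by_contra h3
          exact h2 (mem_sdiff.mpr ⟨hu, by simp_all⟩)
        · exact mem_insert_of_mem e'
    have h3 : (T \ (B ∪ insert x M)).card ≤ k := by
      have : T \ (B ∪ insert x M) = (T \ (M ∪ B)).erase x := by ext u; simp; tauto
      rw [this, card_erase_of_mem hxT]; omega
    rw [mem_sdiff, mem_union, not_or] at hxT
    rcases ih B (insert x M) h3 with h4 | h4
    · exact hx h4.succ
    · exact h1 (Or.inr ⟨x, hxT.1, hxT.2.1, hxT.2.2, h4⟩)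

theorem W.mono {S T M B : Finset ℕ} {N N' : ℕ} (h : N ≤ N') (hw : W S T N M B) :
    W S T N' M B := by
  induction h with
  | refl => exact hw
  | step _ ih => exact ih.succ

theorem result : ∃ C : ℕ → ℕ, ∀ S : Finset ℕ, S.Nonempty → Win S (C S.card) ∅ ∅ := by
  classical
  choose d hd using fun n =>
    Combinatorics.Subspace.exists_mono_in_high_dimension_fin (Fin n) Prop Unit
  refine ⟨fun n => n ^ d n, fun S _ => ?_⟩
  let e : Fin S.card → ℕ := fun i => (S.equivFin.symm i : ℕ)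
  let φ : (Fin (d S.card) → Fin S.card) → ℕ := fun x => ∑ i, e (x i)
  have hR : ∀ M B, univ.image φ ⊆ M ∪ B → HasCopy S M ∨ HasCopy S B := by
    intro M B h
    obtain ⟨l, c, hc⟩ := hd S.card (fun x => φ x ∈ M)
    have key : ∀ Q : Finset ℕ, (∀ a, φ (l fun _ => a) ∈ Q) → HasCopy S Q := by
      intro Q hQ
      obtain ⟨i, hi⟩ := l.proper ()
      refine ⟨(univ.filter fun i => l.idxFun i = Sum.inr ()).card,
        ((∑ i, (l.idxFun i).elim e (fun _ => 0) : ℕ) : ℤ), card_pos.mpr ⟨i, by simp [hi]⟩,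
        fun s hs => ⟨_, hQ (S.equivFin ⟨s, hs⟩), ?_⟩⟩
      rw [← Nat.cast_mul, ← Nat.cast_add, card_filter, sum_mul, ← sum_add_distrib]
      congr 1
      refine sum_congr rfl fun i _ => ?_
      rcases h : l.idxFun i with a | a <;> simp [Combinatorics.Subspace.coe_apply, h, e]
    by_cases h1 : c
    · exact Or.inl (key M fun a => (hc fun _ => a).mpr h1)
    · exact Or.inr (key B fun a => (mem_union.mp (h (mem_image_of_mem φ (mem_univ _)))).resolve_left
        (fun e => h1 ((hc fun _ => a).mp e)))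
  have hcard : (univ.image φ \ (∅ ∪ ∅)).card ≤ S.card ^ d S.card := by
    simpa using card_image_le (s := univ) (f := φ)
  rcases steal S _ hR _ ∅ ∅ hcard with h | h
  · exact h.win
  · exact ((h 0 (by simp)).anti (by simp)).win

end Pool.Agent.Results.MP_3e1131_co.Bounded
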